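import Mathlib

/-!
Self-interest cumulative subtraction games with tie-breaking conventions, and the example
`S = {6,10,26,27,35}`, `h = 101`.
-/

namespace Pool.Agent.Results.MP_0d6f46_co.AvACounterexample

/-- The two tie-breaking conventions: friendly `F` and antagonistic `A`. -/
inductive Conv
  | F
  | A
  deriving DecidableEq

open Conv

/-- The outcome `(o^1, o^2)` at heap size `h`, when the player who moves has convention `x` and the
other player has convention `y`.  The first component is the maximum over the moves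
`s ∈ S`, `0 < s ≤ h` of `s` plus the second component at `h - s` in the dual setting `(y, x)`; the
second component is, over the moves attaining this maximum, the maximum (if `x = F`) or the minimum
(if `x = A`) of the first component at `h - s` in the dual setting.  If there is no move both
are `0` (`sSup` and `sInf` of the empty set of natural numbers are `0`). -/
noncomputable def out (S : Finset ℕ) (x y : Conv) (h : ℕ) : ℕ × ℕ :=
  let best : ℕ := sSup {v : ℕ | ∃ s : ℕ, ∃ _ : s ∈ S ∧ 0 < s ∧ s ≤ h,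
    v = s + (out S y x (h - s)).2}
  let replies : Set ℕ := {w : ℕ | ∃ s : ℕ, ∃ _ : s ∈ S ∧ 0 < s ∧ s ≤ h,
    s + (out S y x (h - s)).2 = best ∧ w = (out S y x (h - s)).1}
  (best, match x with
    | F => sSup replies
    | A => sInf replies)
termination_by h
decreasing_by all_goals omega

/-- Certificate for a value of `out` when there is a move. -/
theorem out_eq_of (S : Finset ℕ) (x y : Conv) (h : ℕ) (v : ℕ × ℕ)
    (h1 : ∀ s ∈ S, 0 < s → s ≤ h → s + (out S y x (h - s)).2 ≤ v.1)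
    (h2 : ∃ s ∈ S, 0 < s ∧ s ≤ h ∧ s + (out S y x (h - s)).2 = v.1 ∧ (out S y x (h - s)).1 = v.2)
    (hF : x = F → ∀ s ∈ S, 0 < s → s ≤ h → s + (out S y x (h - s)).2 = v.1 →
      (out S y x (h - s)).1 ≤ v.2)
    (hA : x = A → ∀ s ∈ S, 0 < s → s ≤ h → s + (out S y x (h - s)).2 = v.1 →
      v.2 ≤ (out S y x (h - s)).1) :
    out S x y h = v := by
  obtain ⟨s0, hs0, hp0, hle0, e1, e2⟩ := h2
  have hb : IsGreatest {v : ℕ | ∃ s : ℕ, ∃ _ : s ∈ S ∧ 0 < s ∧ s ≤ h,
      v = s + (out S y x (h - s)).2} v.1 := by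
    refine ⟨⟨s0, ⟨hs0, hp0, hle0⟩, e1.symm⟩, ?_⟩
    rintro w ⟨s, ⟨a, b, c⟩, rfl⟩
    exact h1 s a b c
  rw [out.eq_def]
  simp only
  rw [hb.csSup_eq]
  ext
  · rfl
  · cases x with
    | F =>
      simp only
      apply IsGreatest.csSup_eq
      refine ⟨⟨s0, ⟨hs0, hp0, hle0⟩, e1, e2.symm⟩, ?_⟩
      rintro w ⟨s, ⟨a, b, c⟩, d, rfl⟩
      exact hF rfl s a b c d
    | A =>
      simp only
      apply IsLeast.csInf_eq
      refine ⟨⟨s0, ⟨hs0, hp0, hle0⟩, e1, e2.symm⟩, ?_⟩
      rintro w ⟨s, ⟨a, b, c⟩, d, rfl⟩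
      exact hA rfl s a b c d

/-- Without a move the outcome is `(0,0)`. -/
theorem out_zero (S : Finset ℕ) (x y : Conv) (h : ℕ) (hno : ∀ s ∈ S, 0 < s → ¬ s ≤ h) :
    out S x y h = (0, 0) := by
  have e1 : {v : ℕ | ∃ s : ℕ, ∃ _ : s ∈ S ∧ 0 < s ∧ s ≤ h,
      v = s + (out S y x (h - s)).2} = ∅ := by
    rw [Set.eq_empty_iff_forall_notMem]
    rintro w ⟨s, ⟨a, b, c⟩, -⟩
    exact hno s a b c
  have e2 : ∀ b : ℕ, {w : ℕ | ∃ s : ℕ, ∃ _ : s ∈ S ∧ 0 < s ∧ s ≤ h,
      s + (out S y x (h - s)).2 = b ∧ w = (out S y x (h - s)).1} = ∅ := by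
    intro b
    rw [Set.eq_empty_iff_forall_notMem]
    rintro w ⟨s, ⟨a, b, c⟩, -⟩
    exact hno s a b c
  rw [out.eq_def]
  simp only [e1, e2]
  cases x <;> simp

/-- The subtraction set of the example. -/
def S0 : Finset ℕ := {6, 10, 26, 27, 35}

/-- Outcomes in the setting `FvF`. -/
def tabFF : List (ℕ × ℕ) :=
  [(0, 0), (0, 0), (0, 0), (0, 0), (0, 0), (0, 0), (6, 0), (6, 0), (6, 0), (6, 0), (10, 0),
   (10, 0), (10, 0), (10, 0), (10, 0), (10, 0), (10, 6), (10, 6), (10, 6), (10, 6), (10, 10),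
   (10, 10), (12, 10), (12, 10), (12, 10), (12, 10), (26, 0), (27, 0), (27, 0), (27, 0), (27,
   0), (27, 0), (27, 0), (27, 6), (27, 6), (35, 0), (35, 0), (35, 0), (35, 0), (35, 0), (35,
   0), (35, 6), (35, 6), (35, 6), (35, 6), (35, 10), (36, 10), (37, 10), (37, 10), (37, 12),
   (37, 12), (41, 10), (41, 10), (41, 10), (41, 10), (45, 10), (45, 10), (45, 12), (45, 12),
   (45, 12), (45, 12), (35, 26), (35, 27), (35, 27), (35, 27), (35, 27), (35, 27), (35, 27),
   (41, 27), (41, 27), (35, 35), (36, 35), (37, 35), (37, 36), (37, 37), (38, 37), (41, 35),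
   (41, 36), (41, 37), (42, 37), (45, 35), (45, 36), (45, 37), (46, 37), (47, 37), (47, 38),
   (45, 41), (52, 35), (53, 35), (54, 35), (54, 35), (54, 35), (54, 35), (54, 35), (54, 35),
   (54, 41), (61, 35), (62, 35), (62, 36), (62, 37), (63, 37), (64, 37)]

/-- Outcomes in the setting `FvA`. -/
def tabFA : List (ℕ × ℕ) :=
  [(0, 0), (0, 0), (0, 0), (0, 0), (0, 0), (0, 0), (6, 0), (6, 0), (6, 0), (6, 0), (10, 0),
   (10, 0), (10, 0), (10, 0), (10, 0), (10, 0), (10, 6), (10, 6), (10, 6), (10, 6), (10, 10),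
   (10, 10), (12, 10), (12, 10), (12, 10), (12, 10), (26, 0), (27, 0), (27, 0), (27, 0), (27,
   0), (27, 0), (27, 0), (27, 6), (27, 6), (35, 0), (35, 0), (35, 0), (35, 0), (35, 0), (35,
   0), (35, 6), (35, 6), (35, 6), (35, 6), (35, 10), (36, 10), (37, 10), (37, 10), (37, 12),
   (37, 12), (41, 10), (41, 10), (41, 10), (41, 10), (45, 10), (45, 10), (45, 12), (45, 12),
   (45, 12), (45, 12), (35, 26), (35, 27), (35, 27), (35, 27), (35, 27), (35, 27), (35, 27),
   (41, 27), (41, 27), (35, 35), (36, 35), (37, 35), (37, 36), (37, 37), (38, 37), (41, 35),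
   (41, 36), (41, 37), (41, 37), (45, 35), (45, 36), (45, 37), (45, 37), (47, 37), (47, 38),
   (45, 41), (52, 35), (53, 35), (54, 35), (54, 35), (54, 35), (54, 35), (54, 35), (54, 35),
   (54, 41), (61, 35), (62, 35), (62, 36), (62, 37), (62, 37), (63, 38)]

/-- Outcomes in the setting `AvF`. -/
def tabAF : List (ℕ × ℕ) :=
  [(0, 0), (0, 0), (0, 0), (0, 0), (0, 0), (0, 0), (6, 0), (6, 0), (6, 0), (6, 0), (10, 0),
   (10, 0), (10, 0), (10, 0), (10, 0), (10, 0), (10, 6), (10, 6), (10, 6), (10, 6), (10, 10),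
   (10, 10), (12, 10), (12, 10), (12, 10), (12, 10), (26, 0), (27, 0), (27, 0), (27, 0), (27,
   0), (27, 0), (27, 0), (27, 6), (27, 6), (35, 0), (35, 0), (35, 0), (35, 0), (35, 0), (35,
   0), (35, 6), (35, 6), (35, 6), (35, 6), (35, 10), (36, 10), (37, 10), (37, 10), (37, 12),
   (37, 12), (41, 10), (41, 10), (41, 10), (41, 10), (45, 10), (45, 10), (45, 12), (45, 12),
   (45, 12), (45, 12), (35, 26), (35, 27), (35, 27), (35, 27), (35, 27), (35, 27), (35, 27),
   (41, 27), (41, 27), (35, 35), (36, 35), (37, 35), (37, 35), (37, 35), (38, 37), (41, 35),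
   (41, 35), (41, 35), (42, 37), (45, 35), (45, 36), (45, 37), (46, 37), (47, 37), (47, 37),
   (45, 41), (52, 35), (53, 35), (54, 35), (54, 35), (54, 35), (54, 35), (54, 35), (54, 35),
   (54, 41), (61, 35), (62, 35), (62, 35), (62, 35), (63, 37), (64, 37)]

/-- Outcomes in the setting `AvA`. -/
def tabAA : List (ℕ × ℕ) :=
  [(0, 0), (0, 0), (0, 0), (0, 0), (0, 0), (0, 0), (6, 0), (6, 0), (6, 0), (6, 0), (10, 0),
   (10, 0), (10, 0), (10, 0), (10, 0), (10, 0), (10, 6), (10, 6), (10, 6), (10, 6), (10, 10),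
   (10, 10), (12, 10), (12, 10), (12, 10), (12, 10), (26, 0), (27, 0), (27, 0), (27, 0), (27,
   0), (27, 0), (27, 0), (27, 6), (27, 6), (35, 0), (35, 0), (35, 0), (35, 0), (35, 0), (35,
   0), (35, 6), (35, 6), (35, 6), (35, 6), (35, 10), (36, 10), (37, 10), (37, 10), (37, 12),
   (37, 12), (41, 10), (41, 10), (41, 10), (41, 10), (45, 10), (45, 10), (45, 12), (45, 12),
   (45, 12), (45, 12), (35, 26), (35, 27), (35, 27), (35, 27), (35, 27), (35, 27), (35, 27),
   (41, 27), (41, 27), (35, 35), (36, 35), (37, 35), (37, 35), (37, 35), (38, 37), (41, 35),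
   (41, 35), (41, 35), (41, 35), (45, 35), (45, 36), (45, 37), (45, 37), (47, 37), (47, 37),
   (45, 41), (52, 35), (53, 35), (54, 35), (54, 35), (54, 35), (54, 35), (54, 35), (54, 35),
   (54, 41), (61, 35), (62, 35), (62, 35), (62, 35), (62, 35), (63, 38)]

/-- The table of outcomes. -/
def T (x y : Conv) (h : ℕ) : ℕ × ℕ :=
  match x, y with
  | F, F => tabFF.getD h (0, 0)
  | F, A => tabFA.getD h (0, 0)
  | A, F => tabAF.getD h (0, 0)
  | A, A => tabAA.getD h (0, 0)

/-- The local check of the table at `h ≥ 6`. -/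
def ok (x y : Conv) (h : ℕ) : Bool :=
  decide (∀ s ∈ S0, 0 < s → s ≤ h → s + (T y x (h - s)).2 ≤ (T x y h).1) &&
  decide (∃ s ∈ S0, 0 < s ∧ s ≤ h ∧ s + (T y x (h - s)).2 = (T x y h).1 ∧
    (T y x (h - s)).1 = (T x y h).2) &&
  decide (x = F → ∀ s ∈ S0, 0 < s → s ≤ h → s + (T y x (h - s)).2 = (T x y h).1 →
      (T y x (h - s)).1 ≤ (T x y h).2) &&
  decide (x = A → ∀ s ∈ S0, 0 < s → s ≤ h → s + (T y x (h - s)).2 = (T x y h).1 →
      (T x y h).2 ≤ (T y x (h - s)).1)

set_option maxRecDepth 100000 in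
theorem check : ∀ h < 102, 6 ≤ h →
    ok F F h = true ∧ ok F A h = true ∧ ok A F h = true ∧ ok A A h = true := by
  decide +kernel

theorem check0 : ∀ h < 6, T F F h = (0, 0) ∧ T F A h = (0, 0) ∧ T A F h = (0, 0) ∧
    T A A h = (0, 0) := by
  decide

theorem nomove : ∀ h < 6, ∀ s ∈ S0, 0 < s → ¬ s ≤ h := by decide

theorem out_T (h : ℕ) : ∀ x y : Conv, h < 102 → out S0 x y h = T x y h := by
  induction h using Nat.strong_induction_on with
  | _ h ih =>
    intro x y hh
    by_cases h6 : h < 6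
    · rw [out_zero S0 x y h (nomove h h6)]
      have := check0 h h6
      cases x <;> cases y <;> simp [this]
    · have hok : ok x y h = true := by
        have := check h hh (by omega)
        cases x <;> cases y <;> simp [this]
      unfold ok at hok
      simp only [Bool.and_eq_true, decide_eq_true_eq] at hok
      obtain ⟨⟨⟨c1, c2⟩, c3⟩, c4⟩ := hok
      apply out_eq_of
      · intro s hs h0 hle
        rw [ih (h - s) (by omega) y x (by omega)]
        exact c1 s hs h0 hle
      · obtain ⟨s, hs, h0, hle, e1, e2⟩ := c2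
        refine ⟨s, hs, h0, hle, ?_, ?_⟩
        · rw [ih (h - s) (by omega) y x (by omega)]; exact e1
        · rw [ih (h - s) (by omega) y x (by omega)]; exact e2
      · intro hx s hs h0 hle e
        rw [ih (h - s) (by omega) y x (by omega)] at e ⊢
        exact c3 hx s hs h0 hle e
      · intro hx s hs h0 hle e
        rw [ih (h - s) (by omega) y x (by omega)] at e ⊢
        exact c4 hx s hs h0 hle e

/-- For `S = {6,10,26,27,35}` and `h = 101` the second player gets `37` in `AvF` and `38` in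
`AvA`: a unilateral switch from friendly to antagonistic towards `AvA` strictly gains. -/
theorem result :
    out {6, 10, 26, 27, 35} A F 101 = (64, 37) ∧ out {6, 10, 26, 27, 35} A A 101 = (63, 38) := by
  refine ⟨?_, ?_⟩
  · rw [show ({6, 10, 26, 27, 35} : Finset ℕ) = S0 from rfl, out_T 101 A F (by norm_num)]
    decide
  · rw [show ({6, 10, 26, 27, 35} : Finset ℕ) = S0 from rfl, out_T 101 A A (by norm_num)]
    decide

end Pool.Agent.Results.MP_0d6f46_co.AvACounterexample
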